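import Pool.Agent.Run7.h15.Par.Step

/-!
# Orbits near a parabolic point, for nearby parameters
-/

set_option autoImplicit false

namespace Pool.Agent.Run7.h15.Par

open Complex Filter Topology Metric Set

theorem add_pow_two {x y : ℝ} (hx : 0 ≤ x) (hy : 0 ≤ y) (e : ℕ) :
    (x + y) ^ e ≤ 2 ^ e * x ^ e + 2 ^ e * y ^ e := by
  rcases le_total x y with h | h
  · have h1 : (x + y) ^ e ≤ (2 * y) ^ e := pow_le_pow_left₀ (by positivity) (by linarith) e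
    rw [mul_pow] at h1
    have : 0 ≤ 2 ^ e * x ^ e := by positivity
    linarith
  · have h1 : (x + y) ^ e ≤ (2 * x) ^ e := pow_le_pow_left₀ (by positivity) (by linarith) e
    rw [mul_pow] at h1
    have : 0 ≤ 2 ^ e * y ^ e := by positivity
    linarith

/-- one step of the perturbed map in terms of the Fatou coordinate -/
theorem one_step {ν e : ℕ} (hν : 1 ≤ ν) (he : 1 ≤ e) {c₀ c u : ℂ} {a : ℂ → ℂ} (ha0 : a 0 ≠ 0)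
    {G : ℂ → ℂ → ℂ} {η C' : ℝ}
    (hu : u ≠ 0) (hu1 : ‖u‖ ≤ 1) (hG0 : G c₀ u = u + u ^ (ν + 1) * a u)
    (hau : ‖a u - a 0‖ ≤ η / 2 * ‖a 0‖) (hm : ‖a 0 * u ^ ν‖ ≤ η)
    (hG : ‖G c u - G c₀ u‖ * ‖u‖ ^ (e - 1) ≤ C' * ‖c - c₀‖ * ‖u‖)
    (hV : C' * ‖c - c₀‖ * ((ν : ℝ) * ‖a 0‖ * ‖V ν (a 0) u‖) ^ e ≤ η / 2 * ‖a 0‖) :
    G c u = u * (1 + (G c u - u) / u) ∧
      ‖(G c u - u) / u - a 0 * u ^ ν‖ ≤ η * ‖a 0 * u ^ ν‖ ∧ ‖a 0 * u ^ ν‖ ≤ η := by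
  have hup : 0 < ‖u‖ := norm_pos_iff.2 hu
  have hA : 0 < ‖a 0‖ := norm_pos_iff.2 ha0
  have hν0 : (0 : ℝ) < ν := by exact_mod_cast (by omega : 0 < ν)
  refine ⟨by field_simp; ring, ?_, hm⟩
  have e1 : (ν : ℝ) * ‖a 0‖ * ‖V ν (a 0) u‖ = (‖u‖ ^ ν)⁻¹ := by
    rw [norm_V]
    field_simp
  rw [e1, inv_pow, ← pow_mul] at hV
  have hpe : 0 < ‖u‖ ^ (ν * e) := by positivity
  have h1 : C' * ‖c - c₀‖ ≤ η / 2 * ‖a 0‖ * ‖u‖ ^ (ν * e) := by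
    have h2 := mul_le_mul_of_nonneg_right hV hpe.le
    rwa [mul_assoc (C' * ‖c - c₀‖), inv_mul_cancel₀ hpe.ne', mul_one] at h2
  have hηA : 0 ≤ η / 2 * ‖a 0‖ := (norm_nonneg _).trans hau
  have h2 : ‖u‖ ^ (ν * e) ≤ ‖u‖ ^ ν * ‖u‖ ^ (e - 1) := by
    rw [← pow_add]
    apply pow_le_pow_of_le_one hup.le hu1
    obtain ⟨k, rfl⟩ : ∃ k, ν = k + 1 := ⟨ν - 1, by omega⟩
    obtain ⟨l, rfl⟩ : ∃ l, e = l + 1 := ⟨e - 1, by omega⟩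
    have : (k + 1) * (l + 1) = k * l + k + l + 1 := by ring
    rw [this]
    simp only [Nat.add_sub_cancel]
    have : 0 ≤ k * l := Nat.zero_le _
    omega
  have h3 : ‖(G c u - G c₀ u) / u‖ ≤ η / 2 * ‖a 0‖ * ‖u‖ ^ ν := by
    have h4 : ‖(G c u - G c₀ u) / u‖ * ‖u‖ ^ (e - 1) ≤
        η / 2 * ‖a 0‖ * ‖u‖ ^ ν * ‖u‖ ^ (e - 1) := by
      rw [norm_div, div_mul_eq_mul_div, div_le_iff₀ hup]
      refine hG.trans ?_
      apply mul_le_mul_of_nonneg_right _ hup.le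
      refine h1.trans ?_
      rw [mul_assoc (η / 2 * ‖a 0‖)]
      exact mul_le_mul_of_nonneg_left h2 hηA
    exact le_of_mul_le_mul_right h4 (by positivity)
  have e2 : (G c u - u) / u - a 0 * u ^ ν = (G c u - G c₀ u) / u + u ^ ν * (a u - a 0) := by
    rw [hG0]
    field_simp
    ring
  rw [e2]
  refine (norm_add_le _ _).trans ?_
  rw [norm_mul, norm_mul, norm_pow]
  have h5 : ‖u‖ ^ ν * ‖a u - a 0‖ ≤ ‖u‖ ^ ν * (η / 2 * ‖a 0‖) :=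
    mul_le_mul_of_nonneg_left hau (by positivity)
  linarith

theorem core {ν e : ℕ} (hν : 1 ≤ ν) (he : 1 ≤ e) {c₀ : ℂ} {a : ℂ → ℂ} (ha : ContinuousAt a 0)
    (ha0 : a 0 ≠ 0) {G : ℂ → ℂ → ℂ} (hG0 : ∀ᶠ u in 𝓝 (0 : ℂ), G c₀ u = u + u ^ (ν + 1) * a u)
    {C : ℝ} (hG : ∀ᶠ q in 𝓝 ((c₀, 0) : ℂ × ℂ),
      ‖G q.1 q.2 - G c₀ q.2‖ * ‖q.2‖ ^ (e - 1) ≤ C * ‖q.1 - c₀‖ * ‖q.2‖)
    {x : ℕ → ℂ → ℂ} (hx : ∀ᶠ c in 𝓝 c₀, ∀ k, x (k + 1) c = G c (x k c))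
    (hxc : ∀ k, ContinuousAt (x k) c₀) (hlim : Tendsto (fun k => x k c₀) atTop (𝓝 0))
    (hne : ∀ k, x k c₀ ≠ 0) {δ : ℝ} (hδ : 0 < δ) :
    ∃ κ : ℝ, 0 < κ ∧ ∃ k₀ : ℕ, ∀ᶠ c in 𝓝 c₀, ∀ j : ℕ,
      (j : ℝ) ^ e * ‖c - c₀‖ ≤ κ → ‖x (k₀ + j) c‖ ≤ δ := by
  obtain ⟨η, hη0, -, hη⟩ := exists_good hν
  have hA : 0 < ‖a 0‖ := norm_pos_iff.2 ha0
  have hν0 : (0 : ℝ) < ν := by exact_mod_cast (by omega : 0 < ν)
  obtain ⟨C', hC'⟩ : ∃ C' : ℝ, C' = |C| + 1 := ⟨_, rfl⟩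
  have hC'0 : 0 < C' := by rw [hC']; positivity
  have hCC' : C ≤ C' := by
    rw [hC']
    have := le_abs_self C
    linarith
  -- the small disc
  have h1 : ∀ᶠ u in 𝓝 (0 : ℂ), ‖a u - a 0‖ ≤ η / 2 * ‖a 0‖ := by
    have h2 : Tendsto (fun u => ‖a u - a 0‖) (𝓝 0) (𝓝 0) := by
      have := (ha.tendsto.sub_const (a 0)).norm
      rwa [sub_self, norm_zero] at this
    filter_upwards [h2.eventually (gt_mem_nhds (show (0 : ℝ) < η / 2 * ‖a 0‖ by positivity))]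
      with u hu using hu.le
  have h2 : ∀ᶠ u in 𝓝 (0 : ℂ), ‖a 0 * u ^ ν‖ ≤ η := by
    have h3 : Tendsto (fun u : ℂ => ‖a 0 * u ^ ν‖) (𝓝 0) (𝓝 0) := by
      have h4 : Tendsto (fun u : ℂ => a 0 * u ^ ν) (𝓝 0) (𝓝 (a 0 * 0 ^ ν)) :=
        ((continuous_pow ν).tendsto (0 : ℂ)).const_mul _
      rw [zero_pow (by omega), mul_zero] at h4
      have := h4.norm
      rwa [norm_zero] at this
    filter_upwards [h3.eventually (gt_mem_nhds hη0)] with u hu using hu.le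
  obtain ⟨ρ₁, hρ₁, H1⟩ := Metric.eventually_nhds_iff.1 (hG0.and (h1.and h2))
  obtain ⟨ρ₂, hρ₂, H2⟩ := Metric.eventually_nhds_iff.1 hG
  obtain ⟨ρ, hρdef⟩ : ∃ ρ, ρ = min (min (ρ₁ / 2) (ρ₂ / 2)) (min 1 δ) := ⟨_, rfl⟩
  have hρ : 0 < ρ := by
    rw [hρdef]
    exact lt_min (lt_min (by linarith) (by linarith)) (lt_min one_pos hδ)
  have hρ1 : ρ ≤ ρ₁ / 2 := by rw [hρdef]; exact (min_le_left _ _).trans (min_le_left _ _)
  have hρ2 : ρ ≤ ρ₂ / 2 := by rw [hρdef]; exact (min_le_left _ _).trans (min_le_right _ _)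
  have hρ3 : ρ ≤ 1 := by rw [hρdef]; exact (min_le_right _ _).trans (min_le_left _ _)
  have hρ4 : ρ ≤ δ := by rw [hρdef]; exact (min_le_right _ _).trans (min_le_right _ _)
  -- one step
  have step : ∀ c u : ℂ, ‖c - c₀‖ ≤ ρ → u ≠ 0 → ‖u‖ ≤ ρ →
      C' * ‖c - c₀‖ * ((ν : ℝ) * ‖a 0‖ * ‖V ν (a 0) u‖) ^ e ≤ η / 2 * ‖a 0‖ →
      G c u = u * (1 + (G c u - u) / u) ∧
        ‖(G c u - u) / u - a 0 * u ^ ν‖ ≤ η * ‖a 0 * u ^ ν‖ ∧ ‖a 0 * u ^ ν‖ ≤ η := by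
    intro c u hc hu hur hV
    obtain ⟨q1, q2, q3⟩ := H1 (show dist u 0 < ρ₁ by rw [dist_zero_right]; linarith)
    refine one_step hν he ha0 hu (hur.trans hρ3) q1 q2 q3 ?_ hV
    have q4 := H2 (y := (c, u)) (by
      rw [Prod.dist_eq, dist_eq_norm, dist_zero_right]
      exact max_lt (by simp only; linarith) (by simp only; linarith))
    simp only at q4
    refine q4.trans ?_
    gcongr
  -- large Fatou coordinate gives small `u`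
  obtain ⟨R, hR⟩ : ∃ R : ℝ, R = max 1 (((ν : ℝ) * (‖a 0‖ * ρ ^ ν))⁻¹) := ⟨_, rfl⟩
  have hsmall : ∀ u : ℂ, u ≠ 0 → R ≤ ‖V ν (a 0) u‖ → ‖u‖ ≤ ρ := by
    intro u hu hRu
    have hup : 0 < ‖u‖ := norm_pos_iff.2 hu
    have h3 : ((ν : ℝ) * (‖a 0‖ * ρ ^ ν))⁻¹ ≤ ((ν : ℝ) * (‖a 0‖ * ‖u‖ ^ ν))⁻¹ := by
      rw [← norm_V]
      refine le_trans ?_ hRu
      rw [hR]
      exact le_max_right _ _
    rw [inv_le_inv₀ (by positivity) (by positivity)] at h3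
    have h4 : ‖u‖ ^ ν ≤ ρ ^ ν :=
      le_of_mul_le_mul_left (le_of_mul_le_mul_left h3 hν0) hA
    exact (pow_le_pow_iff_left₀ hup.le hρ.le (by omega)).1 h4
  -- the orbit for the parabolic parameter
  have hx0 : ∀ k, x (k + 1) c₀ = G c₀ (x k c₀) := hx.self_of_nhds
  obtain ⟨k₀, hk₀⟩ := re_large hη ha0 (u := fun j => x j c₀)
    (s := fun j => (x (j + 1) c₀ - x j c₀) / x j c₀) hne (by
      have h3 := hlim.norm
      rw [norm_zero] at h3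
      filter_upwards [h3.eventually (gt_mem_nhds hρ)] with j hj
      have h4 := step c₀ (x j c₀) (by rw [sub_self, norm_zero]; exact hρ.le) (hne j) hj.le (by
        rw [sub_self, norm_zero, mul_zero, zero_mul]
        positivity)
      rw [← hx0] at h4
      exact h4) (R + 1)
  obtain ⟨V₀, hV₀⟩ : ∃ V₀, V₀ = ‖V ν (a 0) (x k₀ c₀)‖ + 1 := ⟨_, rfl⟩
  have hV₀1 : 1 ≤ V₀ := by
    rw [hV₀]
    have := norm_nonneg (V ν (a 0) (x k₀ c₀))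
    linarith
  have hVc : ContinuousAt (fun c => V ν (a 0) (x k₀ c)) c₀ := by
    unfold V
    have h3 : ContinuousAt (fun c => (ν : ℂ) * (a 0 * x k₀ c ^ ν)) c₀ :=
      continuousAt_const.mul (continuousAt_const.mul ((hxc k₀).pow ν))
    refine (h3.inv₀ ?_).neg
    have hνc : (ν : ℂ) ≠ 0 := by exact_mod_cast (by omega : ν ≠ 0)
    exact mul_ne_zero hνc (mul_ne_zero ha0 (pow_ne_zero _ (hne k₀)))
  have hev1 : ∀ᶠ c in 𝓝 c₀, x k₀ c ≠ 0 := (hxc k₀).eventually_ne (hne k₀)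
  have hev2 : ∀ᶠ c in 𝓝 c₀, R < (V ν (a 0) (x k₀ c)).re :=
    (Complex.continuous_re.continuousAt.comp hVc).eventually (lt_mem_nhds (by
      show R < (V ν (a 0) (x k₀ c₀)).re
      linarith))
  have hev3 : ∀ᶠ c in 𝓝 c₀, ‖V ν (a 0) (x k₀ c)‖ < V₀ :=
    hVc.norm.eventually (gt_mem_nhds (by
      show ‖V ν (a 0) (x k₀ c₀)‖ < V₀
      rw [hV₀]
      linarith))
  -- constants
  obtain ⟨D, hD⟩ : ∃ D : ℝ, D = C' * ((ν : ℝ) * ‖a 0‖) ^ e := ⟨_, rfl⟩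
  have hD0 : 0 < D := by rw [hD]; positivity
  obtain ⟨r₁, hr₁⟩ : ∃ r₁ : ℝ, r₁ = η / 4 * ‖a 0‖ / (D * (2 ^ e * V₀ ^ e)) := ⟨_, rfl⟩
  have hr₁0 : 0 < r₁ := by rw [hr₁]; positivity
  obtain ⟨κ, hκ⟩ : ∃ κ : ℝ, κ = η / 4 * ‖a 0‖ / (D * (2 ^ e * 2 ^ e)) := ⟨_, rfl⟩
  have hκ0 : 0 < κ := by rw [hκ]; positivity
  have hev4 : ∀ᶠ c in 𝓝 c₀, ‖c - c₀‖ < min ρ r₁ := by
    have h3 : Tendsto (fun c : ℂ => ‖c - c₀‖) (𝓝 c₀) (𝓝 0) := by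
      have : Continuous fun c : ℂ => ‖c - c₀‖ := by fun_prop
      have h4 := this.tendsto c₀
      simpa using h4
    exact h3.eventually (gt_mem_nhds (lt_min hρ hr₁0))
  refine ⟨κ, hκ0, k₀, ?_⟩
  filter_upwards [hx, hev1, hev2, hev3, hev4] with c hxc' e1 e2 e3 e4 j hj
  have e5 : ‖c - c₀‖ ≤ ρ := e4.le.trans (min_le_left _ _)
  have e6 : ‖c - c₀‖ ≤ r₁ := e4.le.trans (min_le_right _ _)
  have ht0 := norm_nonneg (c - c₀)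
  have hcond : C' * ‖c - c₀‖ * ((ν : ℝ) * ‖a 0‖ * (V₀ + 2 * j)) ^ e ≤ η / 2 * ‖a 0‖ := by
    have h3 : (V₀ + 2 * j) ^ e ≤ 2 ^ e * V₀ ^ e + 2 ^ e * (2 * (j : ℝ)) ^ e :=
      add_pow_two (by linarith) (by positivity) e
    have h4 : C' * ‖c - c₀‖ * ((ν : ℝ) * ‖a 0‖ * (V₀ + 2 * j)) ^ e =
        D * ‖c - c₀‖ * (V₀ + 2 * j) ^ e := by
      rw [hD, mul_pow]
      ring
    rw [h4]
    have h5 : D * (2 ^ e * V₀ ^ e) * ‖c - c₀‖ ≤ η / 4 * ‖a 0‖ := by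
      have h6 : D * (2 ^ e * V₀ ^ e) * ‖c - c₀‖ ≤ D * (2 ^ e * V₀ ^ e) * r₁ :=
        mul_le_mul_of_nonneg_left e6 (by positivity)
      refine h6.trans (le_of_eq ?_)
      rw [hr₁]
      field_simp
    have h7 : D * (2 ^ e * 2 ^ e) * ((j : ℝ) ^ e * ‖c - c₀‖) ≤ η / 4 * ‖a 0‖ := by
      have h6 : D * (2 ^ e * 2 ^ e) * ((j : ℝ) ^ e * ‖c - c₀‖) ≤ D * (2 ^ e * 2 ^ e) * κ :=
        mul_le_mul_of_nonneg_left hj (by positivity)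
      refine h6.trans (le_of_eq ?_)
      rw [hκ]
      field_simp
    calc D * ‖c - c₀‖ * (V₀ + 2 * j) ^ e
        ≤ D * ‖c - c₀‖ * (2 ^ e * V₀ ^ e + 2 ^ e * (2 * (j : ℝ)) ^ e) :=
          mul_le_mul_of_nonneg_left h3 (by positivity)
      _ = D * (2 ^ e * V₀ ^ e) * ‖c - c₀‖ + D * (2 ^ e * 2 ^ e) * ((j : ℝ) ^ e * ‖c - c₀‖) := by
          rw [mul_pow]
          ring
      _ ≤ η / 2 * ‖a 0‖ := by linarith
  have hd := drift hη ha0 (R := R) (V₀ := V₀) (J := j) (u := fun i => x (k₀ + i) c)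
    (s := fun i => (x (k₀ + i + 1) c - x (k₀ + i) c) / x (k₀ + i) c) (by
      intro i hi hui hRi hVi
      have h4 := step c (x (k₀ + i) c) e5 hui (hsmall _ hui hRi) (by
        refine le_trans ?_ hcond
        apply mul_le_mul_of_nonneg_left _ (by positivity)
        apply pow_le_pow_left₀ (by positivity)
        apply mul_le_mul_of_nonneg_left _ (by positivity)
        refine hVi.trans ?_
        have : (i : ℝ) ≤ j := by exact_mod_cast hi.le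
        linarith)
      rw [← hxc'] at h4
      exact h4) e1 e2.le e3.le j le_rfl
  obtain ⟨d1, d2, -⟩ := hd
  refine (hsmall _ d1 ?_).trans hρ4
  have := Complex.re_le_norm (V ν (a 0) (x (k₀ + j) c))
  have hj0 : (0 : ℝ) ≤ j := j.cast_nonneg
  linarith

end Pool.Agent.Run7.h15.Par
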