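import Pool.Agent.Run7.h15.Par.LF

/-!
# Parabolic cycles and the critical orbit
-/

set_option autoImplicit false

namespace Pool.Agent.Run7.h15.Par

open Complex Filter Topology Metric Set N62a1eb23
open Pool.Agent.H712R2 (P P_succ P_one P_zero fc continuous_P mem_multibrot_iff)
open Pool.Agent.Y736.RN (contDiff_it cont_it diff_it_y)

variable {d N : ℕ} {c z₀ : ℂ}

theorem deriv_iterate_mul {p q : ℕ} (hfix : (fc d c)^[p] z₀ = z₀) :
    deriv ((fc d c)^[p * q]) z₀ = deriv ((fc d c)^[p]) z₀ ^ q := by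
  induction q with
  | zero =>
    rw [mul_zero, Function.iterate_zero, pow_zero]
    simp
  | succ q ih =>
    have h1 : (fc d c)^[p * (q + 1)] = (fc d c)^[p] ∘ (fc d c)^[p * q] := by
      rw [← Function.iterate_add, mul_add, mul_one, add_comm]
    have h2 : (fc d c)^[p * q] z₀ = z₀ := by
      rw [Function.iterate_mul]
      exact Function.iterate_fixed hfix q
    rw [h1, deriv_comp z₀ (diff_it_y d p c _) (diff_it_y d (p * q) c _), h2, ih, pow_succ, mul_comm]

/-- the multiplier is constant along the cycle -/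
theorem deriv_shift {p i : ℕ} (hfix : (fc d c)^[p] z₀ = z₀)
    (h0 : deriv ((fc d c)^[i]) z₀ ≠ 0) :
    deriv ((fc d c)^[p]) ((fc d c)^[i] z₀) = deriv ((fc d c)^[p]) z₀ := by
  have h1 : (fc d c)^[p] ∘ (fc d c)^[i] = (fc d c)^[i] ∘ (fc d c)^[p] := by
    rw [← Function.iterate_add, ← Function.iterate_add, add_comm]
  have h2 : deriv ((fc d c)^[p] ∘ (fc d c)^[i]) z₀ = deriv ((fc d c)^[i] ∘ (fc d c)^[p]) z₀ := by
    rw [h1]
  rw [deriv_comp z₀ (diff_it_y d p c _) (diff_it_y d i c _),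
    deriv_comp z₀ (diff_it_y d i c _) (diff_it_y d p c _), hfix, mul_comm] at h2
  exact mul_left_cancel₀ h0 h2

/-- **Every parabolic cycle attracts the critical orbit.** -/
theorem exists_parabolic (hd : 2 ≤ d) (hN : 1 ≤ N) (hfix : (fc d c)^[N] z₀ = z₀)
    (hder : deriv ((fc d c)^[N]) z₀ = 1) :
    ∃ i, deriv ((fc d c)^[i]) z₀ ≠ 0 ∧ Parabolic d N c ((fc d c)^[i] z₀) := by
  obtain ⟨m, hm, hlim, hne⟩ := leau hd hN hfix hder
  obtain ⟨i, hi⟩ : ∃ i, i + m = N * m :=
    ⟨N * m - m, Nat.sub_add_cancel (Nat.le_mul_of_pos_left m (by omega))⟩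
  have hNm : (fc d c)^[N * m] z₀ = z₀ := by
    rw [Function.iterate_mul]
    exact Function.iterate_fixed hfix m
  have hi0 : deriv ((fc d c)^[i]) z₀ ≠ 0 := by
    have h1 := deriv_iterate_mul (q := m) hfix
    have h2 : (fc d c)^[N * m] = (fc d c)^[m] ∘ (fc d c)^[i] := by
      rw [← Function.iterate_add, add_comm, hi]
    rw [h2, deriv_comp z₀ (diff_it_y d m c _) (diff_it_y d i c _), hder, one_pow] at h1
    intro h
    rw [h, mul_zero] at h1
    exact zero_ne_one h1
  refine ⟨i, hi0, hN, ?_, ?_, ?_, ?_⟩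
  · show (fc d c)^[N] ((fc d c)^[i] z₀) = (fc d c)^[i] z₀
    rw [← Function.iterate_add_apply, add_comm, Function.iterate_add_apply, hfix]
  · show deriv ((fc d c)^[N]) ((fc d c)^[i] z₀) = 1
    rw [deriv_shift hfix hi0, hder]
  · show Tendsto (fun k => P d (N * k) c) atTop (𝓝 ((fc d c)^[i] z₀))
    rw [← tendsto_add_atTop_iff_nat m]
    have h1 : ∀ k, P d (N * (k + m)) c = (fc d c)^[i] (P d (m + N * k) c) := by
      intro k
      unfold P
      rw [← Function.iterate_add_apply, ← add_assoc, hi, ← mul_add, add_comm m k]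
    simp only [h1]
    exact ((diff_it_y d i c).continuous.tendsto z₀).comp hlim
  · intro k h
    apply hne k
    have h1 : P d (m + N * k) c = (fc d c)^[m] (P d (N * k) c) := by
      unfold P
      rw [← Function.iterate_add_apply]
    rw [h1, show P d (N * k) c = (fc d c)^[i] z₀ from h, ← Function.iterate_add_apply, add_comm,
      hi, hNm]

/-- **Cycles whose multiplier is a root of unity other than one.** -/
theorem exists_satellite (hd : 2 ≤ d) {p q : ℕ} (hp : 1 ≤ p) (hq : 1 ≤ q)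
    (hfix : (fc d c)^[p] z₀ = z₀) (h1 : deriv ((fc d c)^[p]) z₀ ≠ 1)
    (hroot : deriv ((fc d c)^[p]) z₀ ^ q = 1) :
    ∃ z₁, Satellite d (p * q) c z₁ := by
  have hpq : 1 ≤ p * q := Nat.mul_pos (by omega) (by omega)
  have hfix' : (fc d c)^[p * q] z₀ = z₀ := by
    rw [Function.iterate_mul]
    exact Function.iterate_fixed hfix q
  obtain ⟨i, hi, hpar⟩ := exists_parabolic hd hpq hfix' (by rw [deriv_iterate_mul hfix, hroot])
  refine ⟨_, hpar, p, q, rfl, ?_, ?_⟩
  · show (fc d c)^[p] ((fc d c)^[i] z₀) = (fc d c)^[i] z₀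
    rw [← Function.iterate_add_apply, add_comm, Function.iterate_add_apply, hfix]
  · show deriv ((fc d c)^[p]) ((fc d c)^[i] z₀) ≠ 1
    rw [deriv_shift hfix hi]
    exact h1

end Pool.Agent.Run7.h15.Par
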