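import Pool.Agent.Run7.h15.Par.Loc
import Pool.Agent.Y736.HG4

/-!
# Parabolic parameters of the Multibrot sets: harmonic measure and the exterior map
-/

set_option autoImplicit false

namespace Pool.Agent.Run7.h15.Par

open Complex Filter Topology Metric Set MeasureTheory N62a1eb23 Pool.Agent.H713R2
open Pool.Agent.H712R2 (P P_succ P_one P_zero fc continuous_P mem_multibrot_iff)
open Pool.Agent.Y736.HD (Ang vol_Ang_ne)

variable {d N : ℕ} {c₀ z₀ : ℂ}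

/-- upper bound of the escape rate -/
theorem green (hd : 2 ≤ d) {e : ℕ} (he : 1 ≤ e) (hN : 1 ≤ N) (hc₀ : c₀ ∈ multibrotSet d)
    {κ : ℝ} (hκ : 0 < κ) {k₀ : ℕ}
    (H : ∀ᶠ c in 𝓝 c₀, ∀ j : ℕ, (j : ℝ) ^ e * ‖c - c₀‖ ≤ κ → ‖P d (N * (k₀ + j)) c‖ ≤ 3) :
    ∃ A s₀ : ℝ, 0 < A ∧ 0 < s₀ ∧ ∀ ψ : ℂ → ℂ, IsExteriorMap (multibrotSet d) ψ →
      ∀ s : ℝ, 0 < s → s ≤ s₀ → ∀ w : ℂ, 1 < ‖w‖ → ‖ψ w - c₀‖ ≤ s ^ e →
        Real.log ‖w‖ ≤ Real.exp (-(A / s)) := by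
  obtain ⟨ρ₀, hρ₀, hball⟩ := Metric.eventually_nhds_iff.1 H
  have hdR : (2 : ℝ) ≤ d := by exact_mod_cast hd
  have hlogd : 0 < Real.log d := Real.log_pos (by linarith)
  obtain ⟨κ', hκ'⟩ : ∃ κ' : ℝ, κ' = min 1 κ := ⟨_, rfl⟩
  have hκ'0 : 0 < κ' := by rw [hκ']; exact lt_min one_pos hκ
  have hκ'1 : κ' ≤ 1 := by rw [hκ']; exact min_le_left _ _
  have hκ'κ : κ' ^ e ≤ κ := by
    refine (pow_le_of_le_one hκ'0.le hκ'1 (by omega)).trans ?_
    rw [hκ']
    exact min_le_right _ _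
  refine ⟨κ' * Real.log d / 2, min (κ' / 6) (ρ₀ / 2), by positivity,
    lt_min (by positivity) (by positivity), ?_⟩
  intro ψ hψ s hs hss w hw hws
  have hs1 : s ≤ κ' / 6 := hss.trans (min_le_left _ _)
  have hs2 : s ≤ ρ₀ / 2 := hss.trans (min_le_right _ _)
  have hs3 : s ≤ 1 := by linarith
  have hse : s ^ e ≤ s := pow_le_of_le_one hs.le hs3 (by omega)
  have hy : 6 ≤ κ' / s := by
    rw [le_div_iff₀ hs]
    linarith
  obtain ⟨j, hj⟩ : ∃ j, j = ⌊κ' / s⌋₊ := ⟨_, rfl⟩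
  have hj1 : (j : ℝ) ≤ κ' / s := by
    rw [hj]
    exact Nat.floor_le (by positivity)
  have hj2 : κ' / s < j + 1 := by
    rw [hj]
    exact Nat.lt_floor_add_one _
  have hj3 : 1 ≤ j := by
    have : (1 : ℝ) < j := by linarith
    exact_mod_cast this.le
  have h1 : (j : ℝ) ^ e * ‖ψ w - c₀‖ ≤ κ := by
    calc (j : ℝ) ^ e * ‖ψ w - c₀‖ ≤ (κ' / s) ^ e * s ^ e :=
          mul_le_mul (pow_le_pow_left₀ (by positivity) hj1 e) hws (norm_nonneg _) (by positivity)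
      _ = κ' ^ e := by
          rw [← mul_pow]
          congr 1
          field_simp
      _ ≤ κ := hκ'κ
  have h2 := hball (y := ψ w) (by rw [dist_eq_norm]; linarith) j h1
  have h3 : ‖ψ w‖ ≤ 3 := by
    have h4 := (mem_multibrot_iff hd c₀).1 hc₀ 1
    rw [P_one hd] at h4
    have h5 := norm_add_le (ψ w - c₀) c₀
    rw [sub_add_cancel] at h5
    linarith
  obtain ⟨n, hn⟩ : ∃ n, N * (k₀ + j) = n + 1 := by
    have : 1 ≤ N * (k₀ + j) := Nat.one_le_iff_ne_zero.2 (by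
      have : 0 < N * (k₀ + j) := Nat.mul_pos (by omega) (by omega)
      omega)
    exact ⟨N * (k₀ + j) - 1, by omega⟩
  have hnj : j ≤ n + 1 := by
    rw [← hn]
    have : k₀ + j ≤ N * (k₀ + j) := Nat.le_mul_of_pos_left _ (by omega)
    omega
  rw [hn] at h2
  have h4 := Pool.Agent.Y736.HG.green_lower hd hψ hw h3 h2
  have hw0 : 0 < ‖w‖ := by linarith
  have h5 := Real.log_le_log (by positivity) h4
  rw [Real.log_pow] at h5
  push_cast at h5
  have hlog4 : Real.log 4 ≤ 2 := by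
    have e1 : Real.log 4 = 2 * Real.log 2 := by
      rw [show (4 : ℝ) = 2 ^ 2 by norm_num, Real.log_pow]
      norm_num
    have e2 := Real.log_two_lt_d9
    rw [e1]
    linarith
  have h6 : (d : ℝ) ^ n = Real.exp (n * Real.log d) := by
    rw [← Real.log_pow, Real.exp_log (by positivity)]
  rw [h6] at h5
  have h7 : Real.log ‖w‖ ≤ 2 * Real.exp (-(n * Real.log d)) := by
    rw [Real.exp_neg, ← div_eq_mul_inv, le_div_iff₀ (Real.exp_pos _), mul_comm]
    linarith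
  have hn2 : κ' / s - 2 ≤ n := by
    have : (j : ℝ) ≤ n + 1 := by exact_mod_cast hnj
    linarith
  have hlog2 : Real.log 2 ≤ Real.log d := Real.log_le_log (by norm_num) hdR
  refine h7.trans ?_
  have e2 : (2 : ℝ) = Real.exp (Real.log 2) := (Real.exp_log (by norm_num)).symm
  rw [show (2 : ℝ) * Real.exp (-(n * Real.log d)) =
    Real.exp (Real.log 2) * Real.exp (-(n * Real.log d)) by rw [← e2], ← Real.exp_add]
  apply Real.exp_le_exp.2
  have e3 : κ' * Real.log d / 2 / s = (κ' / s) * Real.log d / 2 := by ring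
  rw [e3]
  have e4 : (κ' / s - 2) * Real.log d ≤ n * Real.log d :=
    mul_le_mul_of_nonneg_right hn2 hlogd.le
  nlinarith

theorem ev_of {s₀ : ℝ} (hs₀ : 0 < s₀) : ∀ᶠ s : ℝ in 𝓝[>] 0, 0 < s ∧ s ≤ s₀ :=
  mem_of_superset (Ioc_mem_nhdsGT hs₀) fun _ h => h

/-- the loop -/
theorem loop_gen {ψ : ℂ → ℂ} {r : ℝ → ℝ}
    (hvol : ∀ᶠ δ : ℝ in 𝓝[>] 0, (volume (Ang ψ c₀ (r δ))).toReal < δ)
    {F : ℂ → ℂ} (hF : ContinuousOn F {w | 1 ≤ ‖w‖}) (hE : ∀ w, 1 < ‖w‖ → F w = ψ w) {ζ : ℂ}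
    (hζ : ‖ζ‖ = 1) (hFζ : F ζ = c₀) :
    ∀ᶠ δ : ℝ in 𝓝[>] 0, ∃ ξ : ℂ, ‖ξ‖ = 1 ∧ ‖ξ - ζ‖ ≤ δ ∧ r δ ≤ ‖F ξ - F ζ‖ := by
  have hpi := Real.pi_pos
  -- the angle of `ζ`
  obtain ⟨θ₀, hθ₀, hθζ⟩ : ∃ θ₀ : ℝ, θ₀ ∈ Ioc 0 (2 * Real.pi) ∧ exp (θ₀ * I) = ζ := by
    have h1 : exp ((arg ζ : ℝ) * I) = ζ := by
      have := Complex.norm_mul_exp_arg_mul_I ζ
      rwa [hζ, ofReal_one, one_mul] at this
    rcases le_or_gt (arg ζ) 0 with h2 | h2
    · refine ⟨arg ζ + 2 * Real.pi, ⟨?_, by linarith⟩, ?_⟩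
      · have := Complex.neg_pi_lt_arg ζ
        linarith
      · push_cast
        rw [add_mul, Complex.exp_add, Complex.exp_two_pi_mul_I, mul_one]
        exact h1
    · exact ⟨arg ζ, ⟨h2, by linarith [Complex.arg_le_pi ζ]⟩, h1⟩
  filter_upwards [ev_of (show 0 < θ₀ / 2 by linarith [hθ₀.1]), hvol] with δ hδ hδ3
  obtain ⟨hδ0, hδ2⟩ := hδ
  have hδ2' : δ < θ₀ := by linarith [hθ₀.1]
  by_contra hcon
  push Not at hcon
  -- an interval of angles
  have hsub : Ioc (θ₀ - δ) θ₀ ⊆ Ang ψ c₀ (r δ) := by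
    intro θ hθ
    refine ⟨⟨by linarith [hθ.1], hθ.2.trans hθ₀.2⟩, F (exp (θ * I)), ?_, ?_⟩
    · rw [mem_ball, dist_eq_norm, ← hFζ]
      apply hcon
      · exact Complex.norm_exp_ofReal_mul_I θ
      · rw [← hθζ]
        have h1 : exp (θ * I) - exp (θ₀ * I) =
            exp (θ₀ * I) * (exp (I * ((θ - θ₀ : ℝ) : ℂ)) - 1) := by
          rw [mul_sub, ← Complex.exp_add, mul_one]
          congr 2
          push_cast
          ring
        rw [h1, norm_mul, Complex.norm_exp_ofReal_mul_I, one_mul]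
        refine (Real.norm_exp_I_mul_ofReal_sub_one_le).trans ?_
        rw [Real.norm_eq_abs, abs_le]
        constructor <;> linarith [hθ.1, hθ.2]
    · have h1 : ContinuousWithinAt F {w | 1 ≤ ‖w‖} (exp (θ * I)) :=
        hF _ (by
          show 1 ≤ ‖exp (θ * I)‖
          rw [Complex.norm_exp_ofReal_mul_I])
      have h2 : Tendsto (fun ρ : ℝ => (ρ : ℂ) * exp (θ * I)) (𝓝[>] 1)
          (𝓝[{w | 1 ≤ ‖w‖}] (exp (θ * I))) := by
        rw [tendsto_nhdsWithin_iff]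
        refine ⟨?_, ?_⟩
        · have h3 : Continuous fun ρ : ℝ => (ρ : ℂ) * exp (θ * I) := by fun_prop
          have h4 := (h3.tendsto 1).mono_left (nhdsWithin_le_nhds (s := Ioi (1 : ℝ)))
          simpa using h4
        · filter_upwards [self_mem_nhdsWithin] with ρ hρ
          have hρ' : 1 < ρ := hρ
          show 1 ≤ ‖(ρ : ℂ) * exp (θ * I)‖
          rw [norm_mul, Complex.norm_exp_ofReal_mul_I, mul_one, Complex.norm_real,
            Real.norm_of_nonneg (by linarith)]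
          exact hρ'.le
      refine (h1.tendsto.comp h2).congr' ?_
      filter_upwards [self_mem_nhdsWithin] with ρ hρ
      have hρ' : 1 < ρ := hρ
      apply hE
      rw [norm_mul, Complex.norm_exp_ofReal_mul_I, mul_one, Complex.norm_real,
        Real.norm_of_nonneg (by linarith)]
      exact hρ'
  have h2 := ENNReal.toReal_mono (vol_Ang_ne ψ c₀ (r δ)) (measure_mono hsub)
  rw [Real.volume_Ioc, ENNReal.toReal_ofReal (by linarith)] at h2
  linarith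

/-- **The estimates at a parabolic parameter.** `log ‖w‖` is the value of the Green function of the
complement of the Multibrot set at `ψ w`, and `Ang ψ c₀ r` is the set of the angles `θ` of the rays
landing at distance less than `r` from `c₀`. -/
def Cusp (d e : ℕ) (c₀ : ℂ) : Prop :=
  ∃ A s₀ : ℝ, 0 < A ∧ 0 < s₀ ∧ ∀ ψ : ℂ → ℂ, IsExteriorMap (multibrotSet d) ψ →
    (∀ s : ℝ, 0 < s → s ≤ s₀ → ∀ w : ℂ, 1 < ‖w‖ → ‖ψ w - c₀‖ ≤ s ^ e →
      Real.log ‖w‖ ≤ Real.exp (-(A / s))) ∧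
    (∀ s : ℝ, 0 < s → s ≤ s₀ → (volume (Ang ψ c₀ (s ^ e))).toReal ≤ Real.exp (-(A / s))) ∧
    ∀ F : ℂ → ℂ, ContinuousOn F {w | 1 ≤ ‖w‖} → (∀ w, 1 < ‖w‖ → F w = ψ w) →
      ∀ ζ : ℂ, ‖ζ‖ = 1 → F ζ = c₀ →
        ∀ᶠ δ : ℝ in 𝓝[>] 0, ∃ ξ : ℂ, ‖ξ‖ = 1 ∧ ‖ξ - ζ‖ ≤ δ ∧
          (A / Real.log (1 / δ)) ^ e ≤ ‖F ξ - F ζ‖

theorem cusp_of (hd : 2 ≤ d) {e : ℕ} (he : 1 ≤ e) (hN : 1 ≤ N) (hc₀ : c₀ ∈ multibrotSet d)
    {κ : ℝ} (hκ : 0 < κ) {k₀ : ℕ}
    (H : ∀ᶠ c in 𝓝 c₀, ∀ j : ℕ, (j : ℝ) ^ e * ‖c - c₀‖ ≤ κ → ‖P d (N * (k₀ + j)) c‖ ≤ 3) :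
    Cusp d e c₀ := by
  obtain ⟨A, s₀, hA, hs₀, hG⟩ := green hd he hN hc₀ hκ H
  have hpi := Real.pi_pos
  have hvol : ∀ ψ : ℂ → ℂ, IsExteriorMap (multibrotSet d) ψ → ∀ s : ℝ, 0 < s →
      s ≤ min (s₀ / 2) (A / 12) →
      (volume (Ang ψ c₀ (s ^ e))).toReal ≤ Real.exp (-(A / 4 / s)) := by
    intro ψ hψ s hs hss
    have h1 : s ≤ s₀ / 2 := hss.trans (min_le_left _ _)
    have h2 : s ≤ A / 12 := hss.trans (min_le_right _ _)
    have h3 := Pool.Agent.Y736.HG.vol_le hd hψ hc₀ (r := s ^ e)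
      (S := Real.exp (-(A / (2 * s)))) (by positivity) (Real.exp_pos _).le (by
        intro w hw hws
        apply hG ψ hψ (2 * s) (by positivity) (by linarith) w hw
        refine hws.trans ?_
        rw [mul_pow]
        apply mul_le_mul_of_nonneg_right _ (by positivity)
        calc (2 : ℝ) = 2 ^ 1 := (pow_one 2).symm
          _ ≤ 2 ^ e := pow_le_pow_right₀ (by norm_num) he)
    refine h3.trans ?_
    have h4 : 3 ≤ A / 4 / s := by
      rw [le_div_iff₀ hs]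
      linarith
    have h5 : 2 * Real.pi / Real.log 2 ≤ Real.exp (A / 4 / s) := by
      have h6 : 2 * Real.pi / Real.log 2 ≤ 12 := by
        have e1 := Real.log_two_gt_d9
        rw [div_le_iff₀ (by linarith)]
        have := Real.pi_lt_d2
        linarith
      have h7 : (12 : ℝ) ≤ Real.exp 3 := by
        have e1 := Real.exp_one_gt_d9
        have e2 : Real.exp 3 = Real.exp 1 ^ 3 := by rw [← Real.exp_nat_mul]; norm_num
        rw [e2]
        have e3 : (2.7 : ℝ) ^ 3 ≤ Real.exp 1 ^ 3 :=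
          pow_le_pow_left₀ (by norm_num) (by linarith) 3
        norm_num at e3 ⊢
        linarith
      exact h6.trans (h7.trans (Real.exp_le_exp.2 h4))
    have e1 : 2 * Real.pi * Real.exp (-(A / (2 * s))) / Real.log 2 =
        2 * Real.pi / Real.log 2 * Real.exp (-(A / (2 * s))) := by ring
    have e2 : Real.exp (-(A / 4 / s)) = Real.exp (A / 4 / s) * Real.exp (-(A / (2 * s))) := by
      rw [← Real.exp_add]
      congr 1
      field_simp
      ring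
    rw [e1, e2]
    exact mul_le_mul_of_nonneg_right h5 (Real.exp_pos _).le
  refine ⟨A / 8, min (s₀ / 2) (A / 12), by positivity, lt_min (by positivity) (by positivity), ?_⟩
  intro ψ hψ
  refine ⟨?_, ?_, ?_⟩
  · intro s hs hss w hw hws
    have h1 : s ≤ s₀ / 2 := hss.trans (min_le_left _ _)
    refine (hG ψ hψ s hs (by linarith) w hw hws).trans (Real.exp_le_exp.2 ?_)
    rw [neg_le_neg_iff]
    apply div_le_div_of_nonneg_right _ hs.le
    linarith
  · intro s hs hss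
    refine (hvol ψ hψ s hs hss).trans (Real.exp_le_exp.2 ?_)
    rw [neg_le_neg_iff]
    apply div_le_div_of_nonneg_right _ hs.le
    linarith
  · intro F hF hE ζ hζ hFζ
    refine loop_gen (r := fun δ => (A / 8 / Real.log (1 / δ)) ^ e) ?_ hF hE hζ hFζ
    have h1 : Tendsto (fun δ : ℝ => A / 8 / Real.log (1 / δ)) (𝓝[>] 0) (𝓝 0) := by
      have h2 : Tendsto (fun δ : ℝ => Real.log (1 / δ)) (𝓝[>] 0) atTop := by
        have h20 : Tendsto (fun δ : ℝ => 1 / δ) (𝓝[>] 0) atTop := by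
          simpa [one_div] using tendsto_inv_nhdsGT_zero (𝕜 := ℝ)
        exact Real.tendsto_log_atTop.comp h20
      exact h2.const_div_atTop _
    filter_upwards [ev_of (show (0 : ℝ) < 1 / 2 by norm_num), h1.eventually (gt_mem_nhds
      (show 0 < min (s₀ / 2) (A / 12) from lt_min (by positivity) (by positivity)))] with δ hδ hδ2
    obtain ⟨hδ0, hδ1⟩ := hδ
    have hlog : 0 < Real.log (1 / δ) := by
      apply Real.log_pos
      rw [lt_div_iff₀ hδ0]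
      linarith
    have h3 := hvol ψ hψ (A / 8 / Real.log (1 / δ)) (by positivity) hδ2.le
    refine lt_of_le_of_lt h3 ?_
    have h4 : A / 4 / (A / 8 / Real.log (1 / δ)) = 2 * Real.log (1 / δ) := by
      field_simp
      ring
    rw [h4, one_div, Real.log_inv]
    have h5 : Real.exp (-(2 * -Real.log δ)) = δ ^ 2 := by
      rw [show -(2 * -Real.log δ) = Real.log δ + Real.log δ by ring, Real.exp_add,
        Real.exp_log hδ0]
      ring
    rw [h5]
    nlinarith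

/-- **Parabolic parameters.** -/
theorem cusp_parabolic (hd : 2 ≤ d) (h : Parabolic d N c₀ z₀) : Cusp d 2 c₀ := by
  obtain ⟨κ, hκ, k₀, H⟩ := orbits_two hd h
  exact cusp_of hd (by norm_num) h.pos h.mem hκ H

/-- **Satellite parameters.** -/
theorem cusp_satellite (hd : 2 ≤ d) (h : Satellite d N c₀ z₀) : Cusp d 1 c₀ := by
  obtain ⟨κ, hκ, k₀, H⟩ := orbits_one hd h
  exact cusp_of hd le_rfl h.1.pos h.1.mem hκ H

end Pool.Agent.Run7.h15.Par
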