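import Mathlib

/-!
# Inverse branches of the iterates of a unicritical polynomial on a disc
-/

set_option autoImplicit false

namespace Pool.Agent.Run7.h15.Par

open Complex Filter Topology Metric Set

/-- a holomorphic function without zeros on a disc has a holomorphic logarithm -/
theorem exists_log {c : ℂ} {r : ℝ} {f : ℂ → ℂ} (hf : DifferentiableOn ℂ f (ball c r))
    (h0 : ∀ z ∈ ball c r, f z ≠ 0) :
    ∃ L : ℂ → ℂ, DifferentiableOn ℂ L (ball c r) ∧ ∀ z ∈ ball c r, exp (L z) = f z := by
  rcases le_or_gt r 0 with hr | hr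
  · refine ⟨fun _ => 0, differentiableOn_const _, fun z hz => ?_⟩
    rw [ball_eq_empty.2 hr] at hz
    exact absurd hz (notMem_empty z)
  have hc : c ∈ ball c r := mem_ball_self hr
  have hf' : DifferentiableOn ℂ (deriv f) (ball c r) := hf.deriv isOpen_ball
  have hq : DifferentiableOn ℂ (fun z => deriv f z / f z) (ball c r) := hf'.div hf h0
  obtain ⟨L, hL0, hL⟩ := hq.isExactOn_ball.with_val_at c (log (f c))
  have hLd : DifferentiableOn ℂ L (ball c r) := fun z hz =>
    (hL z hz).differentiableAt.differentiableWithinAt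
  refine ⟨L, hLd, ?_⟩
  have hconst : ∀ z ∈ ball c r, f z * exp (-L z) = 1 := by
    have h1 : ∀ z ∈ ball c r, HasDerivAt (fun z => f z * exp (-L z)) 0 z := by
      intro z hz
      have h2 := ((hf.differentiableAt (isOpen_ball.mem_nhds hz)).hasDerivAt).fun_mul
        ((hL z hz).fun_neg.cexp)
      have e : deriv f z * exp (-L z) + f z * (exp (-L z) * -(deriv f z / f z)) = 0 := by
        have := h0 z hz
        field_simp
        ring
      rw [e] at h2
      exact h2
    intro z hz
    have h3 := (convex_ball c r).is_const_of_fderivWithin_eq_zero (𝕜 := ℂ)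
      (f := fun z => f z * exp (-L z)) (fun z hz => (h1 z hz).differentiableAt.differentiableWithinAt)
      (fun z hz => by
        have h4 : HasFDerivAt (fun z => f z * exp (-L z)) (0 : ℂ →L[ℂ] ℂ) z := by
          have := (h1 z hz).hasFDerivAt
          simpa using this
        exact (h4.hasFDerivWithinAt).fderivWithin (isOpen_ball.uniqueDiffWithinAt hz)) hz hc
    rw [h3, hL0, Complex.exp_neg, Complex.exp_log (h0 c hc), mul_inv_cancel₀ (h0 c hc)]
  intro z hz
  have h5 := hconst z hz
  rw [Complex.exp_neg] at h5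
  have h6 := Complex.exp_ne_zero (L z)
  field_simp at h5
  exact h5.symm

/-- a holomorphic function without zeros on a disc has a holomorphic `d`-th root with a prescribed
value at the centre -/
theorem exists_root {d : ℕ} (hd : 1 ≤ d) {c : ℂ} {r : ℝ} (hr : 0 < r) {f : ℂ → ℂ}
    (hf : DifferentiableOn ℂ f (ball c r)) (h0 : ∀ z ∈ ball c r, f z ≠ 0) {w : ℂ}
    (hw : w ^ d = f c) :
    ∃ k : ℂ → ℂ, DifferentiableOn ℂ k (ball c r) ∧ k c = w ∧ ∀ z ∈ ball c r, k z ^ d = f z := by
  obtain ⟨L, hL, hLf⟩ := exists_log hf h0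
  have hc : c ∈ ball c r := mem_ball_self hr
  have hdc : (d : ℂ) ≠ 0 := by exact_mod_cast (by omega : d ≠ 0)
  obtain ⟨k, hk⟩ : ∃ k : ℂ → ℂ, k = fun z => exp (L z / d) := ⟨_, rfl⟩
  have hkd : ∀ z ∈ ball c r, k z ^ d = f z := by
    intro z hz
    rw [hk, ← hLf z hz, ← Complex.exp_nat_mul]
    congr 1
    field_simp
  have hk0 : ∀ z, k z ≠ 0 := fun z => by rw [hk]; exact Complex.exp_ne_zero _
  refine ⟨fun z => w / k c * k z, ?_, ?_, ?_⟩
  · apply DifferentiableOn.const_mul
    rw [hk]
    exact (hL.div_const _).cexp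
  · have := hk0 c
    field_simp
  · intro z hz
    simp only
    rw [mul_pow, div_pow, hw, hkd c hc, hkd z hz, div_self (h0 c hc), one_mul]

/-- **Inverse branches.** -/
theorem exists_branch {d : ℕ} (hd : 1 ≤ d) {c : ℂ} {x : ℂ} {r : ℝ} (hr : 0 < r) (n : ℕ) :
    ∀ {h : ℂ → ℂ}, DifferentiableOn ℂ h (ball x r) →
      (∀ z ∈ ball x r, ∀ j ≤ n, 1 ≤ j → h z ≠ (fun z => z ^ d + c)^[j] 0) →
      ∀ w : ℂ, (fun z => z ^ d + c)^[n] w = h x →
      ∃ k : ℂ → ℂ, DifferentiableOn ℂ k (ball x r) ∧ k x = w ∧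
        ∀ z ∈ ball x r, (fun z => z ^ d + c)^[n] (k z) = h z := by
  induction n with
  | zero =>
    intro h hh _ w hw
    exact ⟨h, hh, hw.symm, fun z _ => rfl⟩
  | succ n ih =>
    intro h hh hav w hw
    obtain ⟨k', hk', hk'x, hk'h⟩ := ih hh (fun z hz j hj hj1 => hav z hz j (by omega) hj1)
      (w ^ d + c) (by rw [← hw, Function.iterate_succ_apply])
    have hne : ∀ z ∈ ball x r, k' z - c ≠ 0 := by
      intro z hz h0
      have h1 : k' z = c := sub_eq_zero.1 h0
      have h2 := hk'h z hz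
      apply hav z hz (n + 1) le_rfl (by omega)
      rw [← h2, h1, Function.iterate_succ_apply]
      congr 1
      rw [zero_pow (by omega), zero_add]
    obtain ⟨k, hk, hkx, hkd⟩ := exists_root hd hr (hk'.sub_const c) hne (w := w) (by
      rw [hk'x]
      ring)
    refine ⟨k, hk, hkx, ?_⟩
    intro z hz
    rw [Function.iterate_succ_apply, hkd z hz, sub_add_cancel, hk'h z hz]

end Pool.Agent.Run7.h15.Par
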