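import Pool.Agent.Run7.h15.Par.Core
import Pool.Agent.Y736.RN.A
import Pool.Agent.Y736.HL4

/-!
# Parabolic parameters of the Multibrot sets: the critical orbits of nearby parameters
-/

set_option autoImplicit false

namespace Pool.Agent.Run7.h15.Par

open Complex Filter Topology Metric Set N62a1eb23
open Pool.Agent.H712R2 (P P_succ P_one P_zero fc continuous_P mem_multibrot_iff)
open Pool.Agent.Y736.RN (contDiff_it cont_it diff_it_y)

/-- The critical orbit of `z ^ d + c₀` converges, along the multiples of `N`, to the point `z₀`,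
which it does not meet; `z₀` is a fixed point of the `N`-th iterate with multiplier one, that is, a
point of a parabolic cycle. -/
structure Parabolic (d N : ℕ) (c₀ z₀ : ℂ) : Prop where
  pos : 1 ≤ N
  fix : (fun z => z ^ d + c₀)^[N] z₀ = z₀
  mult : deriv ((fun z => z ^ d + c₀)^[N]) z₀ = 1
  lim : Tendsto (fun k => (fun z => z ^ d + c₀)^[N * k] 0) atTop (𝓝 z₀)
  ne : ∀ k, (fun z => z ^ d + c₀)^[N * k] 0 ≠ z₀

/-- A parabolic parameter whose cycle has a multiplier other than one (a root of unity): the root of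
a satellite component. -/
def Satellite (d N : ℕ) (c₀ z₀ : ℂ) : Prop :=
  Parabolic d N c₀ z₀ ∧ ∃ p q : ℕ, N = p * q ∧ (fun z => z ^ d + c₀)^[p] z₀ = z₀ ∧
    deriv ((fun z => z ^ d + c₀)^[p]) z₀ ≠ 1

variable {d N : ℕ} {c₀ z₀ : ℂ}

theorem Parabolic.fix' (h : Parabolic d N c₀ z₀) : (fc d c₀)^[N] z₀ = z₀ := h.fix

theorem Parabolic.mult' (h : Parabolic d N c₀ z₀) : deriv ((fc d c₀)^[N]) z₀ = 1 := h.mult

theorem Parabolic.lim' (h : Parabolic d N c₀ z₀) :
    Tendsto (fun k => P d (N * k) c₀) atTop (𝓝 z₀) := h.lim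

theorem Parabolic.ne' (h : Parabolic d N c₀ z₀) (k : ℕ) : P d (N * k) c₀ ≠ z₀ := h.ne k

theorem P_add (d N k : ℕ) (c : ℂ) : P d (N * (k + 1)) c = (fc d c)^[N] (P d (N * k) c) := by
  unfold P
  rw [← Function.iterate_add_apply, mul_add, mul_one, add_comm]

theorem Parabolic.mem (h : Parabolic d N c₀ z₀) : c₀ ∈ multibrotSet d := by
  intro hcon
  have h1 : Tendsto (fun k : ℕ => N * k) atTop atTop :=
    tendsto_id.const_mul_atTop' (by have := h.pos; omega)
  have h2 := hcon.comp h1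
  have h3 : Disjoint (𝓝 z₀) (Bornology.cobounded ℂ) := Metric.disjoint_nhds_cobounded z₀
  exact (h.lim.not_tendsto h3) h2

theorem Parabolic.norm_le (hd : 2 ≤ d) (h : Parabolic d N c₀ z₀) : ‖z₀‖ ≤ 2 := by
  apply le_of_tendsto' h.lim'.norm
  intro k
  exact (mem_multibrot_iff hd c₀).1 h.mem _

theorem Parabolic.ne_id (h : Parabolic d N c₀ z₀) : ∃ z, (fc d c₀)^[N] z ≠ z := by
  by_contra hcon
  push Not at hcon
  have h1 : ∀ k, P d (N * k) c₀ = 0 := by
    intro k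
    induction k with
    | zero => rfl
    | succ k ih => rw [P_add, ih, hcon]
  have h2 : Tendsto (fun k => P d (N * k) c₀) atTop (𝓝 0) := by
    simp only [h1]
    exact tendsto_const_nhds
  have h3 := tendsto_nhds_unique h.lim' h2
  exact h.ne' 0 (by rw [h1, h3])

/-- the iterates are locally Lipschitz in the parameter and the point -/
theorem lip (d N : ℕ) (c₀ z₀ : ℂ) : ∃ K ρ : ℝ, 0 ≤ K ∧ 0 < ρ ∧ ∀ c z c' z' : ℂ,
    ‖c - c₀‖ < ρ → ‖z - z₀‖ < ρ → ‖c' - c₀‖ < ρ → ‖z' - z₀‖ < ρ →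
    ‖(fc d c)^[N] z - (fc d c')^[N] z'‖ ≤ K * (‖c - c'‖ + ‖z - z'‖) := by
  have h1 : ContDiffAt ℂ 1 (fun q : ℂ × ℂ => (fc d q.1)^[N] q.2) (c₀, z₀) :=
    (contDiff_it d N).contDiffAt.of_le (by simp)
  obtain ⟨K, t, ht, hK⟩ := h1.exists_lipschitzOnWith
  obtain ⟨ρ, hρ, hball⟩ := Metric.mem_nhds_iff.1 ht
  refine ⟨K, ρ, K.coe_nonneg, hρ, ?_⟩
  intro c z c' z' h1 h2 h3 h4
  have m1 : ((c, z) : ℂ × ℂ) ∈ t := hball (by
    rw [mem_ball, Prod.dist_eq, dist_eq_norm, dist_eq_norm]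
    exact max_lt h1 h2)
  have m2 : ((c', z') : ℂ × ℂ) ∈ t := hball (by
    rw [mem_ball, Prod.dist_eq, dist_eq_norm, dist_eq_norm]
    exact max_lt h3 h4)
  have h5 := hK.dist_le_mul _ m1 _ m2
  rw [dist_eq_norm, Prod.dist_eq, dist_eq_norm, dist_eq_norm] at h5
  refine h5.trans (mul_le_mul_of_nonneg_left ?_ K.coe_nonneg)
  exact max_le (by simp only; linarith [norm_nonneg (z - z')])
    (by simp only; linarith [norm_nonneg (c - c')])

/-- **All parabolic parameters.** -/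
theorem orbits_two (hd : 2 ≤ d) (h : Parabolic d N c₀ z₀) :
    ∃ κ : ℝ, 0 < κ ∧ ∃ k₀ : ℕ, ∀ᶠ c in 𝓝 c₀, ∀ j : ℕ,
      (j : ℝ) ^ 2 * ‖c - c₀‖ ≤ κ → ‖P d (N * (k₀ + j)) c‖ ≤ 3 := by
  obtain ⟨ν, a, hν, ha, ha0, hev⟩ := Pool.Agent.Y736.HL.parabolic_germ (diff_it_y d N c₀)
    h.fix' h.mult' h.ne_id
  obtain ⟨K, ρ, hK, hρ, hlip⟩ := lip d N c₀ z₀
  obtain ⟨κ, hκ, k₀, H⟩ := core (ν := ν) (e := 2) hν (by norm_num) (c₀ := c₀)
    ha.continuousAt ha0 (G := fun c u => (fc d c)^[N] (z₀ + u) - z₀)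
    (by
      filter_upwards [hev] with u hu
      rw [hu]
      ring) (C := K) (by
      have h1 : ∀ᶠ q in 𝓝 ((c₀, 0) : ℂ × ℂ), dist q (c₀, 0) < ρ := Metric.ball_mem_nhds _ hρ
      filter_upwards [h1] with q hq
      rw [Prod.dist_eq, max_lt_iff, dist_eq_norm, dist_zero_right] at hq
      have h2 := hlip q.1 (z₀ + q.2) c₀ (z₀ + q.2) hq.1 (by rw [add_sub_cancel_left]; exact hq.2)
        (by rw [sub_self, norm_zero]; exact hρ) (by rw [add_sub_cancel_left]; exact hq.2)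
      rw [sub_self, norm_zero, add_zero] at h2
      rw [sub_sub_sub_cancel_right]
      norm_num
      exact mul_le_mul_of_nonneg_right h2 (norm_nonneg _))
    (x := fun k c => P d (N * k) c - z₀)
    (by
      refine Eventually.of_forall fun c k => ?_
      rw [P_add, add_sub_cancel])
    (fun k => ((continuous_P d (N * k)).sub continuous_const).continuousAt)
    (by
      have := h.lim'.sub_const z₀
      rwa [sub_self] at this)
    (fun k => sub_ne_zero.2 (h.ne' k)) (δ := 1 / 2) (by norm_num)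
  refine ⟨κ, hκ, k₀, ?_⟩
  filter_upwards [H] with c hc j hj
  have h1 := hc j hj
  have h2 := norm_add_le (P d (N * (k₀ + j)) c - z₀) z₀
  rw [sub_add_cancel] at h2
  have h3 := h.norm_le hd
  linarith

/-- the implicit function at a simple zero -/
theorem implicit {H : ℂ → ℂ → ℂ} (hF : ContDiff ℂ ⊤ (fun q : ℂ × ℂ => H q.1 q.2))
    {c₀ y₀ : ℂ} (h0 : H c₀ y₀ = 0) (hd : deriv (H c₀) y₀ ≠ 0) :
    ∃ g : ℂ → ℂ, DifferentiableAt ℂ g c₀ ∧ g c₀ = y₀ ∧ ∀ᶠ c in 𝓝 c₀, H c (g c) = 0 := by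
  set F : ℂ × ℂ → ℂ := fun q => H q.1 q.2 with hFdef
  have hs : HasStrictFDerivAt F (fderiv ℂ F (c₀, y₀)) (c₀, y₀) :=
    hF.contDiffAt.hasStrictFDerivAt (by simp)
  have hL : (fderiv ℂ F (c₀, y₀) ∘L ContinuousLinearMap.inr ℂ ℂ ℂ) 1 = deriv (H c₀) y₀ := by
    have h1 : HasFDerivAt (fun y : ℂ => ((c₀, y) : ℂ × ℂ)) (ContinuousLinearMap.inr ℂ ℂ ℂ) y₀ :=
      hasFDerivAt_prodMk_right c₀ y₀
    have h2 : HasFDerivAt (fun y : ℂ => F (c₀, y))
        (fderiv ℂ F (c₀, y₀) ∘L ContinuousLinearMap.inr ℂ ℂ ℂ) y₀ :=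
      hs.hasFDerivAt.comp y₀ h1
    have h3 := h2.hasDerivAt
    exact h3.deriv.symm
  have hinv : (fderiv ℂ F (c₀, y₀) ∘L ContinuousLinearMap.inr ℂ ℂ ℂ).IsInvertible := by
    refine ⟨ContinuousLinearEquiv.unitsEquivAut ℂ (Units.mk0 _ hd), ?_⟩
    ext
    rw [hL]
    simp
  have hdg := (hs.hasStrictFDerivAt_implicitFunctionOfProdDomain hinv).hasFDerivAt.differentiableAt
  have h1 := hs.eventually_apply_eq_iff_implicitFunctionOfProdDomain hinv
  have h2 : F (c₀, y₀) = 0 := h0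
  rw [h2] at h1
  have h3 : hs.implicitFunctionOfProdDomain hinv c₀ = y₀ := h1.self_of_nhds.1 h0
  refine ⟨hs.implicitFunctionOfProdDomain hinv, hdg, h3, ?_⟩
  have h4 : Tendsto (fun c => ((c, hs.implicitFunctionOfProdDomain hinv c) : ℂ × ℂ)) (𝓝 c₀)
      (𝓝 (c₀, y₀)) := by
    have h5 := hdg.continuousAt.tendsto
    rw [h3] at h5
    exact tendsto_id.prodMk_nhds h5
  filter_upwards [h4.eventually h1] with c hc
  exact hc.2 rfl

/-- **Satellite parameters.** -/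
theorem orbits_one (hd : 2 ≤ d) (hs : Satellite d N c₀ z₀) :
    ∃ κ : ℝ, 0 < κ ∧ ∃ k₀ : ℕ, ∀ᶠ c in 𝓝 c₀, ∀ j : ℕ,
      (j : ℝ) ^ 1 * ‖c - c₀‖ ≤ κ → ‖P d (N * (k₀ + j)) c‖ ≤ 3 := by
  obtain ⟨h, p, q, hN, hfp, hmp⟩ := hs
  have hfp' : (fc d c₀)^[p] z₀ = z₀ := hfp
  have hmp' : deriv ((fc d c₀)^[p]) z₀ ≠ 1 := hmp
  obtain ⟨ν, a, hν, ha, ha0, hev⟩ := Pool.Agent.Y736.HL.parabolic_germ (diff_it_y d N c₀)
    h.fix' h.mult' h.ne_id
  obtain ⟨K, ρ, hK, hρ, hlip⟩ := lip d N c₀ z₀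
  -- the continuation of the cycle
  obtain ⟨b, hb1, hb2, hb3⟩ := implicit (H := fun c z => (fc d c)^[p] z - z)
    ((contDiff_it d p).sub contDiff_snd) (c₀ := c₀) (y₀ := z₀) (by rw [hfp', sub_self]) (by
      have h1 : HasDerivAt (fun z => (fc d c₀)^[p] z - z) (deriv ((fc d c₀)^[p]) z₀ - 1) z₀ :=
        ((diff_it_y d p c₀) z₀).hasDerivAt.sub (hasDerivAt_id z₀)
      rw [h1.deriv]
      exact sub_ne_zero.2 hmp')
  have hbN : ∀ᶠ c in 𝓝 c₀, (fc d c)^[N] (b c) = b c := by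
    filter_upwards [hb3] with c hc
    have h1 : (fc d c)^[p] (b c) = b c := sub_eq_zero.1 hc
    rw [hN, Function.iterate_mul]
    exact Function.iterate_fixed h1 q
  obtain ⟨L, hL, hbL⟩ : ∃ L : ℝ, 0 ≤ L ∧ ∀ᶠ c in 𝓝 c₀, ‖b c - z₀‖ ≤ L * ‖c - c₀‖ := by
    have h1 := hb1.hasDerivAt.isBigO_sub
    obtain ⟨L, hL⟩ := h1.bound
    refine ⟨|L|, abs_nonneg _, ?_⟩
    filter_upwards [hL] with c hc
    rw [hb2] at hc
    exact hc.trans (mul_le_mul_of_nonneg_right (le_abs_self L) (norm_nonneg _))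
  have hbc : Tendsto (fun c => ‖b c - z₀‖) (𝓝 c₀) (𝓝 0) := by
    have h1 := (hb1.continuousAt.tendsto.sub_const z₀).norm
    rwa [hb2, sub_self, norm_zero] at h1
  obtain ⟨K', hK'⟩ : ∃ K', K' = K * (1 + L) + L := ⟨_, rfl⟩
  have hK'0 : 0 ≤ K' := by rw [hK']; positivity
  obtain ⟨κ, hκ, k₀, H⟩ := core (ν := ν) (e := 1) hν le_rfl (c₀ := c₀)
    ha.continuousAt ha0 (G := fun c u => (fc d c)^[N] (b c + u) - b c)
    (by
      filter_upwards [hev] with u hu
      rw [hb2, hu]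
      ring) (C := (K' + 1) / (ρ / 2)) (by
      have h1 : ∀ᶠ q in 𝓝 ((c₀, 0) : ℂ × ℂ), dist q (c₀, 0) < ρ / 2 :=
        Metric.ball_mem_nhds _ (by positivity)
      have h2 : ∀ᶠ q in 𝓝 ((c₀, 0) : ℂ × ℂ), (fc d q.1)^[N] (b q.1) = b q.1 ∧
          ‖b q.1 - z₀‖ ≤ L * ‖q.1 - c₀‖ ∧ ‖b q.1 - z₀‖ < ρ / 2 :=
        (continuous_fst.tendsto ((c₀, 0) : ℂ × ℂ)).eventually
          (hbN.and (hbL.and (hbc.eventually (gt_mem_nhds (by positivity)))))
      filter_upwards [h1, h2] with q hq hb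
      obtain ⟨c, u⟩ := q
      rw [Prod.dist_eq, max_lt_iff, dist_eq_norm, dist_zero_right] at hq
      simp only at hq hb ⊢
      obtain ⟨hq1, hq2⟩ := hq
      obtain ⟨b1, b2, b3⟩ := hb
      rw [Nat.sub_self, pow_zero, mul_one]
      by_cases hcc : c = c₀
      · rw [hcc, sub_self, norm_zero]
        positivity
      have hcp : 0 < ‖c - c₀‖ := norm_pos_iff.2 (sub_ne_zero.2 hcc)
      have hdiff : DifferentiableOn ℂ (fun v => (fc d c)^[N] (b c + v) - b c -
          ((fc d c₀)^[N] (b c₀ + v) - b c₀)) (ball 0 (ρ / 2)) := by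
        apply Differentiable.differentiableOn
        exact (((diff_it_y d N c).comp (differentiable_id.const_add (b c))).sub_const (b c)).sub
          (((diff_it_y d N c₀).comp (differentiable_id.const_add (b c₀))).sub_const (b c₀))
      have hval0 : (fc d c)^[N] (b c + 0) - b c - ((fc d c₀)^[N] (b c₀ + 0) - b c₀) = 0 := by
        rw [add_zero, add_zero, b1, hb2, h.fix']
        ring
      have hmaps : MapsTo (fun v => (fc d c)^[N] (b c + v) - b c -
          ((fc d c₀)^[N] (b c₀ + v) - b c₀)) (ball 0 (ρ / 2))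
          (closedBall ((fun v => (fc d c)^[N] (b c + v) - b c -
          ((fc d c₀)^[N] (b c₀ + v) - b c₀)) 0) ((K' + 1) * ‖c - c₀‖)) := by
        intro v hv
        rw [mem_ball, dist_zero_right] at hv
        simp only
        rw [hval0, mem_closedBall, dist_zero_right, hb2]
        have e1 : (fc d c)^[N] (b c + v) - b c - ((fc d c₀)^[N] (z₀ + v) - z₀) =
            ((fc d c)^[N] (b c + v) - (fc d c₀)^[N] (z₀ + v)) - (b c - z₀) := by ring
        rw [e1]
        have e2 := hlip c (b c + v) c₀ (z₀ + v) (by linarith) (by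
          have := norm_add_le (b c - z₀) v
          rw [show b c + v - z₀ = b c - z₀ + v by ring]
          linarith) (by rw [sub_self, norm_zero]; exact hρ) (by
          rw [add_sub_cancel_left]; linarith)
        rw [add_sub_add_right_eq_sub] at e2
        have e3 := norm_sub_le ((fc d c)^[N] (b c + v) - (fc d c₀)^[N] (z₀ + v)) (b c - z₀)
        have e4 : K * (‖c - c₀‖ + ‖b c - z₀‖) ≤ K * (‖c - c₀‖ + L * ‖c - c₀‖) :=
          mul_le_mul_of_nonneg_left (by linarith) hK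
        rw [hK']
        nlinarith
      have h3 := Complex.dist_le_div_mul_dist_of_mapsTo_ball hdiff hmaps
        (show u ∈ ball (0 : ℂ) (ρ / 2) by rwa [mem_ball, dist_zero_right])
      rw [hval0, dist_zero_right, dist_zero_right] at h3
      refine h3.trans (le_of_eq ?_)
      ring)
    (x := fun k c => P d (N * k) c - b c)
    (by
      refine Eventually.of_forall fun c k => ?_
      rw [P_add, add_sub_cancel])
    (fun k => ((continuous_P d (N * k)).continuousAt).sub hb1.continuousAt)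
    (by
      have := h.lim'.sub_const (b c₀)
      rw [hb2, sub_self] at this
      rwa [hb2])
    (fun k => by
      show P d (N * k) c₀ - b c₀ ≠ 0
      rw [hb2]
      exact sub_ne_zero.2 (h.ne' k)) (δ := 1 / 2) (by norm_num)
  refine ⟨κ, hκ, k₀, ?_⟩
  filter_upwards [H, hbc.eventually (gt_mem_nhds (show (0 : ℝ) < 1 / 2 by norm_num))]
    with c hc hb j hj
  have h1 := hc j hj
  have h2 := norm_add_le (P d (N * (k₀ + j)) c - b c) (b c)
  rw [sub_add_cancel] at h2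
  have h4 := norm_add_le (b c - z₀) z₀
  rw [sub_add_cancel] at h4
  have h3 := h.norm_le hd
  linarith

end Pool.Agent.Run7.h15.Par
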