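import Pool.Agent.Run7.h15.Par.Cyc
import Pool.Agent.Run7.h15.Par.Fin

/-!
# Satellite parameters of the Multibrot sets, final form
-/

set_option autoImplicit false

namespace Pool.Agent.Run7.h15.Par

open Complex Filter Topology Metric Set MeasureTheory N62a1eb23 Pool.Agent.H713R2
open Pool.Agent.H712R2 (P P_succ P_one P_zero fc continuous_P mem_multibrot_iff)
open Pool.Agent.Y736.HD (Ang)

variable {d : ℕ} {c₀ z₀ : ℂ}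

theorem satellite_final (hd : 2 ≤ d) {p q : ℕ} (hp : 1 ≤ p) (hq : 1 ≤ q)
    (hfix : (fun z => z ^ d + c₀)^[p] z₀ = z₀)
    (h1 : deriv ((fun z => z ^ d + c₀)^[p]) z₀ ≠ 1)
    (hroot : deriv ((fun z => z ^ d + c₀)^[p]) z₀ ^ q = 1) :
    ∃ A r₀ : ℝ, 0 < A ∧ 0 < r₀ ∧ ∀ ψ : ℂ → ℂ, IsExteriorMap (multibrotSet d) ψ →
      (∀ w : ℂ, 1 < ‖w‖ → ‖ψ w - c₀‖ ≤ r₀ →
        Real.log ‖w‖ ≤ Real.exp (-(A / ‖ψ w - c₀‖))) ∧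
      (∀ r : ℝ, 0 < r → r ≤ r₀ →
        (volume {t : ℝ | t ∈ Ioc 0 (2 * Real.pi) ∧ ∃ ζ ∈ ball c₀ r,
          Tendsto (fun ρ : ℝ => ψ (ρ * exp (t * I))) (𝓝[>] 1) (𝓝 ζ)}).toReal ≤
            Real.exp (-(A / r))) ∧
      ∀ F : ℂ → ℂ, ContinuousOn F {w | 1 ≤ ‖w‖} → (∀ w, 1 < ‖w‖ → F w = ψ w) →
        ∀ ζ : ℂ, ‖ζ‖ = 1 → F ζ = c₀ →
          ∀ᶠ δ : ℝ in 𝓝[>] 0, ∃ ξ : ℂ, ‖ξ‖ = 1 ∧ ‖ξ - ζ‖ ≤ δ ∧
            A / Real.log (1 / δ) ≤ ‖F ξ - F ζ‖ := by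
  obtain ⟨z₁, hs⟩ := exists_satellite hd hp hq hfix h1 hroot
  obtain ⟨A, s₀, hA, hs₀, H⟩ := cusp_satellite hd hs
  refine ⟨A, s₀, hA, hs₀, fun ψ hψ => ?_⟩
  obtain ⟨H1, H2, H3⟩ := H ψ hψ
  refine ⟨?_, ?_, ?_⟩
  · intro w hw hws
    have hne : ψ w ≠ c₀ := by
      intro h
      have h2 : ψ w ∈ (multibrotSet d)ᶜ := hψ.image ▸ mem_image_of_mem ψ hw
      rw [h] at h2
      exact h2 hs.1.mem
    have hpos : 0 < ‖ψ w - c₀‖ := norm_pos_iff.2 (sub_ne_zero.2 hne)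
    exact H1 _ hpos hws w hw (by rw [pow_one])
  · intro r hr hrs
    have h2 := H2 r hr hrs
    rw [pow_one] at h2
    exact h2
  · intro F hF hE ζ hζ hFζ
    filter_upwards [H3 F hF hE ζ hζ hFζ] with δ hδ
    obtain ⟨ξ, h2, h3, h4⟩ := hδ
    rw [pow_one] at h4
    exact ⟨ξ, h2, h3, h4⟩

end Pool.Agent.Run7.h15.Par
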