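import Mathlib

/-!
# The Fatou coordinate

`V ν a u = -1 / (ν a u ^ ν)` is the Fatou coordinate of the map `u ↦ u + a u ^ (ν + 1)`.
-/

set_option autoImplicit false

namespace Pool.Agent.Run7.h15.Par

open Complex Filter Topology Metric Set

/-- `‖(1 + s) ^ k - 1 - k s‖ ≤ 4 ^ k ‖s‖ ^ 2` for `‖s‖ ≤ 1` -/
theorem one_add_pow_sub {s : ℂ} (hs : ‖s‖ ≤ 1) (k : ℕ) :
    ‖(1 + s) ^ k - 1 - k * s‖ ≤ 4 ^ k * ‖s‖ ^ 2 := by
  induction k with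
  | zero => simp
  | succ k ih =>
    have e : (1 + s) ^ (k + 1) - 1 - ((k + 1 : ℕ) : ℂ) * s =
        (1 + s) * ((1 + s) ^ k - 1 - k * s) + k * s ^ 2 := by
      push_cast
      ring
    have h1 : ‖1 + s‖ ≤ 2 := by
      have := norm_add_le (1 : ℂ) s
      rw [norm_one] at this
      linarith
    have h2 : (k : ℝ) ≤ 4 ^ k := by
      exact_mod_cast (Nat.lt_pow_self (by norm_num : 1 < 4)).le
    rw [e]
    refine (norm_add_le _ _).trans ?_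
    rw [norm_mul, norm_mul, norm_pow, Complex.norm_natCast]
    have h3 : ‖1 + s‖ * ‖(1 + s) ^ k - 1 - k * s‖ ≤ 2 * (4 ^ k * ‖s‖ ^ 2) :=
      mul_le_mul h1 ih (norm_nonneg _) (by norm_num)
    have h4 : (k : ℝ) * ‖s‖ ^ 2 ≤ 4 ^ k * ‖s‖ ^ 2 :=
      mul_le_mul_of_nonneg_right h2 (by positivity)
    have h5 : 0 ≤ (4 : ℝ) ^ k * ‖s‖ ^ 2 := by positivity
    calc _ ≤ 2 * (4 ^ k * ‖s‖ ^ 2) + 4 ^ k * ‖s‖ ^ 2 := add_le_add h3 h4
      _ ≤ 4 ^ (k + 1) * ‖s‖ ^ 2 := by rw [pow_succ (4 : ℝ) k]; linarith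

/-- the Fatou coordinate -/
noncomputable def V (ν : ℕ) (a u : ℂ) : ℂ := -((ν : ℂ) * (a * u ^ ν))⁻¹

theorem norm_V {ν : ℕ} {a u : ℂ} : ‖V ν a u‖ = ((ν : ℝ) * (‖a‖ * ‖u‖ ^ ν))⁻¹ := by
  rw [V, norm_neg, norm_inv, norm_mul, norm_mul, norm_pow, Complex.norm_natCast]

/-- the constant for which one step of the map is one step of the translation -/
def Good (ν : ℕ) (η : ℝ) : Prop :=
  ∀ (a u s : ℂ), a ≠ 0 → u ≠ 0 → ‖s - a * u ^ ν‖ ≤ η * ‖a * u ^ ν‖ → ‖a * u ^ ν‖ ≤ η →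
    u * (1 + s) ≠ 0 ∧ ‖V ν a (u * (1 + s)) - V ν a u - 1‖ ≤ 1 / 4

theorem exists_good {ν : ℕ} (hν : 1 ≤ ν) : ∃ η : ℝ, 0 < η ∧ η ≤ 1 ∧ Good ν η := by
  obtain ⟨K, hK⟩ : ∃ K : ℝ, K = 1 + 2 * ν + 2 * 4 ^ (ν + 1) := ⟨_, rfl⟩
  have h4 : (0 : ℝ) < 4 ^ (ν + 1) := by positivity
  have hν0 : (1 : ℝ) ≤ ν := by exact_mod_cast hν
  have hK1 : 1 ≤ K := by rw [hK]; linarith
  refine ⟨1 / (8 * K), by positivity, ?_, ?_⟩
  · rw [div_le_one (by positivity)]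
    linarith
  intro a u s ha hu hs hm
  obtain ⟨η, hη⟩ : ∃ η : ℝ, η = 1 / (8 * K) := ⟨_, rfl⟩
  rw [← hη] at hs hm
  have hηK : η * K = 1 / 8 := by rw [hη]; field_simp
  have hη0 : 0 < η := by rw [hη]; positivity
  have hη1 : η ≤ 1 / 8 := by nlinarith
  obtain ⟨m, hmdef⟩ : ∃ m, m = a * u ^ ν := ⟨_, rfl⟩
  rw [← hmdef] at hs hm
  have hm0 : m ≠ 0 := by rw [hmdef]; exact mul_ne_zero ha (pow_ne_zero _ hu)
  have hmp : 0 < ‖m‖ := norm_pos_iff.2 hm0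
  have hs2 : ‖s‖ ≤ 2 * ‖m‖ := by
    have h1 := norm_add_le (s - m) m
    rw [sub_add_cancel] at h1
    nlinarith
  have hs1 : ‖s‖ ≤ 1 := by linarith
  obtain ⟨x, hx⟩ : ∃ x, x = (1 + s) ^ ν := ⟨_, rfl⟩
  have h1 := one_add_pow_sub hs1 ν
  rw [← hx] at h1
  have hs0 := norm_nonneg s
  have hsq : ‖s‖ ^ 2 ≤ 4 * ‖m‖ ^ 2 := by nlinarith
  have h2 : ‖x - 1 - ν * s‖ ≤ 4 ^ (ν + 1) * ‖m‖ ^ 2 := by
    refine h1.trans ?_
    have h40 : (0 : ℝ) < 4 ^ ν := by positivity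
    calc (4 : ℝ) ^ ν * ‖s‖ ^ 2 ≤ 4 ^ ν * (4 * ‖m‖ ^ 2) := mul_le_mul_of_nonneg_left hsq h40.le
      _ = 4 ^ (ν + 1) * ‖m‖ ^ 2 := by rw [pow_succ (4 : ℝ) ν]; ring
  have h3 : ‖x - 1‖ ≤ η * (2 * ν + 4 ^ (ν + 1)) := by
    have h5 := norm_add_le (x - 1 - ν * s) (ν * s)
    rw [sub_add_cancel, norm_mul, Complex.norm_natCast] at h5
    have h6 : 4 ^ (ν + 1) * ‖m‖ ^ 2 ≤ 4 ^ (ν + 1) * η := by
      apply mul_le_mul_of_nonneg_left _ h4.le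
      nlinarith
    have h7 : (ν : ℝ) * ‖s‖ ≤ ν * (2 * η) :=
      mul_le_mul_of_nonneg_left (by linarith) (by linarith)
    linarith
  have h3' : ‖x - 1‖ ≤ 1 / 8 := by
    refine h3.trans ?_
    rw [← hηK, hK]
    apply mul_le_mul_of_nonneg_left _ hη0.le
    linarith
  have hxn : 7 / 8 ≤ ‖x‖ := by
    have := norm_sub_norm_le (1 : ℂ) (1 - x)
    rw [norm_one, sub_sub_cancel, norm_sub_rev] at this
    linarith
  have hx0 : x ≠ 0 := by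
    rw [← norm_pos_iff]
    linarith
  have h1s : 1 + s ≠ 0 := by
    intro h
    rw [hx, h, zero_pow (by omega)] at hx0
    exact hx0 rfl
  refine ⟨mul_ne_zero hu h1s, ?_⟩
  have hνc : (ν : ℂ) ≠ 0 := by exact_mod_cast (by omega : ν ≠ 0)
  have e1 : V ν a (u * (1 + s)) - V ν a u - 1 =
      ((x - 1 - ν * s) + ν * (s - m) - ν * m * (x - 1)) / (ν * m * x) := by
    have e2 : a * (u * (1 + s)) ^ ν = m * x := by
      rw [hmdef, hx, mul_pow]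
      ring
    unfold V
    rw [e2, ← hmdef]
    field_simp
    ring
  rw [e1, norm_div, norm_mul, norm_mul, Complex.norm_natCast, div_le_iff₀ (by positivity)]
  have h5 : ‖(x - 1 - ν * s) + ν * (s - m) - ν * m * (x - 1)‖ ≤
      4 ^ (ν + 1) * ‖m‖ ^ 2 + ν * (η * ‖m‖) + ν * ‖m‖ * (η * (2 * ν + 4 ^ (ν + 1))) := by
    refine (norm_sub_le _ _).trans (add_le_add ((norm_add_le _ _).trans (add_le_add h2 ?_)) ?_)
    · rw [norm_mul, Complex.norm_natCast]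
      exact mul_le_mul_of_nonneg_left hs (by positivity)
    · rw [norm_mul, norm_mul, Complex.norm_natCast]
      exact mul_le_mul_of_nonneg_left h3 (by positivity)
  refine h5.trans ?_
  have h6 : 4 ^ (ν + 1) * ‖m‖ ^ 2 ≤ ν * ‖m‖ * (η * 4 ^ (ν + 1)) := by
    have h7 : ‖m‖ * ‖m‖ ≤ η * ‖m‖ := mul_le_mul_of_nonneg_right hm hmp.le
    have h8 : η * ‖m‖ ≤ ν * (η * ‖m‖) := le_mul_of_one_le_left (by positivity) hν0
    calc 4 ^ (ν + 1) * ‖m‖ ^ 2 = 4 ^ (ν + 1) * (‖m‖ * ‖m‖) := by ring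
      _ ≤ 4 ^ (ν + 1) * (ν * (η * ‖m‖)) := mul_le_mul_of_nonneg_left (h7.trans h8) h4.le
      _ = _ := by ring
  have h9 : 4 ^ (ν + 1) * ‖m‖ ^ 2 + ν * (η * ‖m‖) + ν * ‖m‖ * (η * (2 * ν + 4 ^ (ν + 1))) ≤
      ν * ‖m‖ * (η * K) := by
    calc _ ≤ ν * ‖m‖ * (η * 4 ^ (ν + 1)) + ν * (η * ‖m‖) +
          ν * ‖m‖ * (η * (2 * ν + 4 ^ (ν + 1))) := by linarith
      _ = ν * ‖m‖ * (η * K) := by rw [hK]; ring
  refine h9.trans ?_
  rw [hηK]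
  have h10 : 0 < (ν : ℝ) * ‖m‖ := by positivity
  nlinarith

/-- **Drift of the Fatou coordinate.** -/
theorem drift {ν : ℕ} {η : ℝ} (hη : Good ν η) {a : ℂ} (ha : a ≠ 0) {R V₀ : ℝ}
    {J : ℕ} {u s : ℕ → ℂ}
    (hrec : ∀ j < J, u j ≠ 0 → R ≤ ‖V ν a (u j)‖ → ‖V ν a (u j)‖ ≤ V₀ + 2 * j →
      u (j + 1) = u j * (1 + s j) ∧ ‖s j - a * u j ^ ν‖ ≤ η * ‖a * u j ^ ν‖ ∧
        ‖a * u j ^ ν‖ ≤ η)
    (h0 : u 0 ≠ 0) (h1 : R ≤ (V ν a (u 0)).re) (h2 : ‖V ν a (u 0)‖ ≤ V₀) :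
    ∀ j ≤ J, u j ≠ 0 ∧ R + j / 2 ≤ (V ν a (u j)).re ∧ ‖V ν a (u j)‖ ≤ V₀ + 2 * j := by
  intro j
  induction j with
  | zero =>
    intro _
    refine ⟨h0, ?_, ?_⟩
    · push_cast
      linarith
    · push_cast
      linarith
  | succ j ih =>
    intro hj
    obtain ⟨i1, i2, i3⟩ := ih (by omega)
    have i4 : R ≤ ‖V ν a (u j)‖ := by
      have := Complex.re_le_norm (V ν a (u j))
      have hj0 : (0 : ℝ) ≤ j := j.cast_nonneg
      linarith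
    obtain ⟨r1, r2, r3⟩ := hrec j (by omega) i1 i4 i3
    obtain ⟨g1, g2⟩ := hη a (u j) (s j) ha i1 r2 r3
    rw [← r1] at g1 g2
    have g3 := (Complex.abs_re_le_norm _).trans g2
    rw [Complex.sub_re, Complex.sub_re, Complex.one_re, abs_le] at g3
    have g4 : ‖V ν a (u (j + 1))‖ ≤ ‖V ν a (u j)‖ + 2 := by
      have e : V ν a (u (j + 1)) = (V ν a (u (j + 1)) - V ν a (u j) - 1) + (V ν a (u j) + 1) := by
        ring
      rw [e]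
      have q1 := norm_add_le (V ν a (u (j + 1)) - V ν a (u j) - 1) (V ν a (u j) + 1)
      have q2 := norm_add_le (V ν a (u j)) 1
      rw [norm_one] at q2
      linarith
    refine ⟨g1, ?_, ?_⟩
    · push_cast
      linarith
    · push_cast
      linarith

/-- a sequence following the parabolic germ has Fatou coordinates with real part tending to
infinity -/
theorem re_large {ν : ℕ} {η : ℝ} (hη : Good ν η) {a : ℂ} (ha : a ≠ 0)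
    {u s : ℕ → ℂ} (hu : ∀ j, u j ≠ 0)
    (hrec : ∀ᶠ j in atTop, u (j + 1) = u j * (1 + s j) ∧
      ‖s j - a * u j ^ ν‖ ≤ η * ‖a * u j ^ ν‖ ∧ ‖a * u j ^ ν‖ ≤ η) (R : ℝ) :
    ∃ k, R ≤ (V ν a (u k)).re := by
  obtain ⟨K, hK⟩ := eventually_atTop.1 hrec
  have key : ∀ j : ℕ, (V ν a (u K)).re + j / 2 ≤ (V ν a (u (K + j))).re := by
    intro j
    induction j with
    | zero => simp
    | succ j ih =>
      obtain ⟨r1, r2, r3⟩ := hK (K + j) (by omega)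
      obtain ⟨g1, g2⟩ := hη a (u (K + j)) (s (K + j)) ha (hu _) r2 r3
      rw [← r1] at g1 g2
      have g3 := (Complex.abs_re_le_norm _).trans g2
      rw [Complex.sub_re, Complex.sub_re, Complex.one_re, abs_le] at g3
      rw [show K + (j + 1) = K + j + 1 by ring]
      push_cast
      linarith
  obtain ⟨j, hj⟩ := exists_nat_ge (2 * (R - (V ν a (u K)).re))
  refine ⟨K + j, ?_⟩
  have := key j
  linarith

end Pool.Agent.Run7.h15.Par
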